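import Mathlib

/-! Coherent configurations given by a graph and a partition of its vertices in two parts
(helper119). -/

set_option linter.unusedSectionVars false

namespace Q119.ST

open Finset

variable {V : Type}

/-- A coherent configuration on `V`: a partition of `V × V` (given by its equivalence relation `r`)
such that the diagonal is a union of classes, the transpose of a class is a class, and for all
classes `R_i`, `R_j` (represented by pairs `i`, `j`) the number of `z` with `(x, z) ∈ R_i` and
`(z, y) ∈ R_j` depends only on the class of `(x, y)`. -/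
structure IsCoherentConfiguration (r : Setoid (V × V)) : Prop where
  diag : ∀ x y z, r (x, x) (y, z) → y = z
  transpose : ∀ p q, r p q → r p.swap q.swap
  inter : ∀ i j p q : V × V, r p q →
    {z | r (p.1, z) i ∧ r (z, p.2) j}.ncard = {z | r (q.1, z) i ∧ r (z, q.2) j}.ncard

/-- the edge set of `G` is a union of classes of `r` -/
def EdgesUnion (G : SimpleGraph V) (r : Setoid (V × V)) : Prop :=
  ∀ p q, r p q → (G.Adj p.1 p.2 ↔ G.Adj q.1 q.2)

/-- `r` is the coherent closure of `G`: the coarsest coherent configuration such that the edge set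
is a union of basis relations -/
def IsCoherentClosure (G : SimpleGraph V) (r : Setoid (V × V)) : Prop :=
  IsCoherentConfiguration r ∧ EdgesUnion G r ∧
    ∀ s, IsCoherentConfiguration s → EdgesUnion G s → s ≤ r

/-- the fibres: the sets `X` whose diagonal is a basis relation -/
def fibres (r : Setoid (V × V)) : Set (Set V) := {X | {p : V × V | p.1 = p.2 ∧ p.1 ∈ X} ∈ r.classes}

/-- the basis relations contained in `X × Y` -/
def relationsIn (r : Setoid (V × V)) (X Y : Set V) : Set (Set (V × V)) :=
  {C | C ∈ r.classes ∧ C ⊆ X ×ˢ Y}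

/-- type `[3 2; 3]` (strongly regular design) -/
def IsStronglyRegularDesign (r : Setoid (V × V)) : Prop :=
  ∃ X₁ X₂ : Set V, X₁ ≠ X₂ ∧ fibres r = {X₁, X₂} ∧ (relationsIn r X₁ X₁).ncard = 3 ∧
    (relationsIn r X₁ X₂).ncard = 2 ∧ (relationsIn r X₂ X₂).ncard = 3

/-! ### The configuration of a graph with a vertex partition -/

variable [DecidableEq V] (G : SimpleGraph V) [DecidableRel G.Adj] (P : V → Bool)

/-- the colour of a pair -/
def col (p : V × V) : Bool × Bool × Fin 3 :=
  (P p.1, P p.2, if p.1 = p.2 then 0 else if G.Adj p.1 p.2 then 1 else 2)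

/-- indicators -/
def E (x z : V) : ℤ := if x = z then 1 else 0
/-- indicators -/
def A (x z : V) : ℤ := if G.Adj x z then 1 else 0
/-- indicators -/
def F (b : Bool) (z : V) : ℤ := if P z = b then 1 else 0

/-- the coefficients of the indicator of `rel = ε` in terms of `E`, `A`, `1` -/
def cf : Fin 3 → ℤ × ℤ × ℤ
  | 0 => (1, 0, 0)
  | 1 => (0, 1, 0)
  | 2 => (-1, -1, 1)

lemma ind_eq (ε : Fin 3) (x z : V) :
    (if (if x = z then (0 : Fin 3) else if G.Adj x z then 1 else 2) = ε then (1 : ℤ) else 0) =
      (cf ε).1 * E x z + (cf ε).2.1 * A G x z + (cf ε).2.2 := by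
  unfold E A
  by_cases h : x = z
  · subst h
    fin_cases ε <;> simp [cf]
  · by_cases h' : G.Adj x z
    · fin_cases ε <;> simp [cf, h, h']
    · fin_cases ε <;> simp [cf, h, h']

variable [Fintype V]

/-- the number of common neighbours in part `b` -/
def nb (b : Bool) (x y : V) : ℤ := ∑ z, F P b z * (A G x z * A G z y)

lemma expand (b : Bool) (α β γ α' β' γ' : ℤ) (x y : V) :
    ∑ z, F P b z * ((α * E x z + β * A G x z + γ) * (α' * E z y + β' * A G z y + γ')) =
      α * α' * ∑ z, F P b z * (E x z * E z y) + α * β' * ∑ z, F P b z * (E x z * A G z y) +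
      α * γ' * ∑ z, F P b z * E x z + β * α' * ∑ z, F P b z * (A G x z * E z y) +
      β * β' * ∑ z, F P b z * (A G x z * A G z y) + β * γ' * ∑ z, F P b z * A G x z +
      γ * α' * ∑ z, F P b z * E z y + γ * β' * ∑ z, F P b z * A G z y +
      γ * γ' * ∑ z, F P b z := by
  simp only [Finset.mul_sum, ← Finset.sum_add_distrib]
  refine Finset.sum_congr rfl fun z _ => ?_
  ring

lemma sum_E_left (b : Bool) (x : V) (f : V → ℤ) : ∑ z, F P b z * (E x z * f z) = F P b x * f x := by
  rw [Finset.sum_eq_single x]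
  · simp [E]
  · intro z _ hz
    simp [E, Ne.symm hz]
  · simp

lemma sum_E_right (b : Bool) (y : V) (f : V → ℤ) : ∑ z, F P b z * (f z * E z y) = F P b y * f y := by
  rw [Finset.sum_eq_single y]
  · simp [E]
  · intro z _ hz
    simp [E, hz]
  · simp

lemma sum_E_left' (b : Bool) (x : V) : ∑ z, F P b z * E x z = F P b x := by
  have := sum_E_left P b x (fun _ => 1)
  simpa using this

lemma sum_E_right' (b : Bool) (y : V) : ∑ z, F P b z * E z y = F P b y := by
  have := sum_E_right P b y (fun _ => 1)
  simpa using this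

lemma A_symm (x y : V) : A G x y = A G y x := by
  unfold A
  by_cases h : G.Adj x y
  · rw [if_pos h, if_pos h.symm]
  · rw [if_neg h, if_neg (fun h' => h h'.symm)]

lemma A_sq (x y : V) : A G x y * A G x y = A G x y := by
  unfold A
  by_cases h : G.Adj x y <;> simp [h]

lemma sum_A_left (b : Bool) (x : V) : ∑ z, F P b z * A G x z = nb G P b x x := by
  unfold nb
  refine Finset.sum_congr rfl fun z _ => ?_
  rw [A_symm G z x, A_sq]

lemma sum_A_right (b : Bool) (y : V) : ∑ z, F P b z * A G z y = nb G P b y y := by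
  unfold nb
  refine Finset.sum_congr rfl fun z _ => ?_
  rw [A_symm G y z, A_sq]

lemma ncard_eq (i j : V × V) (p : V × V) :
    ({z | Setoid.ker (col G P) (p.1, z) i ∧ Setoid.ker (col G P) (z, p.2) j}.ncard : ℤ) =
      if (P p.1 = P i.1 ∧ P p.2 = P j.2 ∧ P i.2 = P j.1) then
        ∑ z, F P (P i.2) z *
          (((cf (col G P i).2.2).1 * E p.1 z + (cf (col G P i).2.2).2.1 * A G p.1 z +
            (cf (col G P i).2.2).2.2) *
          ((cf (col G P j).2.2).1 * E z p.2 + (cf (col G P j).2.2).2.1 * A G z p.2 +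
            (cf (col G P j).2.2).2.2)) else 0 := by
  classical
  rw [Set.ncard_eq_toFinset_card', Set.toFinset_ofPred, Finset.card_filter]
  push_cast
  split_ifs with h
  · refine Finset.sum_congr rfl fun z _ => ?_
    rw [← ind_eq, ← ind_eq]
    simp only [Setoid.ker_def]
    unfold F
    have h1 : (col G P (p.1, z) = col G P i ∧ col G P (z, p.2) = col G P j) ↔
        (P z = P i.2 ∧ (if p.1 = z then (0 : Fin 3) else if G.Adj p.1 z then 1 else 2) =
          (col G P i).2.2 ∧ (if z = p.2 then (0 : Fin 3) else if G.Adj z p.2 then 1 else 2) =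
          (col G P j).2.2) := by
      simp only [col, Prod.mk.injEq]
      constructor
      · rintro ⟨⟨_, h2, h3⟩, _, _, h4⟩
        exact ⟨h2, h3, h4⟩
      · rintro ⟨h2, h3, h4⟩
        exact ⟨⟨h.1, h2, h3⟩, h2.trans h.2.2, h.2.1, h4⟩
    by_cases hz : P z = P i.2
    · by_cases h3 : (if p.1 = z then (0 : Fin 3) else if G.Adj p.1 z then 1 else 2) =
          (col G P i).2.2
      · by_cases h4 : (if z = p.2 then (0 : Fin 3) else if G.Adj z p.2 then 1 else 2) =
          (col G P j).2.2
        · rw [if_pos (h1.2 ⟨hz, h3, h4⟩), if_pos hz, if_pos h3, if_pos h4]; norm_num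
        · rw [if_neg (fun h5 => h4 (h1.1 h5).2.2), if_neg h4]; simp
      · rw [if_neg (fun h5 => h3 (h1.1 h5).2.1), if_neg h3]; simp
    · rw [if_neg (fun h5 => hz (h1.1 h5).1), if_neg hz]; simp
  · refine Finset.sum_eq_zero fun z _ => ?_
    rw [if_neg]
    simp only [Setoid.ker_def, col, Prod.mk.injEq]
    rintro ⟨⟨h2, h3, _⟩, h4, h5, _⟩
    exact h ⟨h2, h5, h3.symm.trans h4⟩

/-- If the numbers of common neighbours in the two parts depend only on the colours, the colours are
a coherent configuration. -/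
theorem coherent_ker (h : ∀ b p q, col G P p = col G P q → nb G P b p.1 p.2 = nb G P b q.1 q.2)
    (hd : ∀ b x y, P x = P y → nb G P b x x = nb G P b y y) :
    IsCoherentConfiguration (Setoid.ker (col G P)) where
  diag x y z hxyz := by
    have h1 : (0 : Fin 3) = if y = z then 0 else if G.Adj y z then 1 else 2 := by
      have := congrArg (fun t => t.2.2) (Setoid.ker_def.1 hxyz)
      simpa [col] using this
    by_contra hne
    rw [if_neg hne] at h1
    split_ifs at h1 <;> simp at h1
  transpose p q hpq := by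
    rw [Setoid.ker_def] at hpq ⊢
    simp only [col, Prod.mk.injEq] at hpq ⊢
    refine ⟨hpq.2.1, hpq.1, ?_⟩
    simp only [Prod.fst_swap, Prod.snd_swap, eq_comm (a := p.2), eq_comm (a := q.2),
      G.adj_comm p.2, G.adj_comm q.2]
    exact hpq.2.2
  inter i j p q hpq := by
    have hc : col G P p = col G P q := hpq
    have h1 : P p.1 = P q.1 := congrArg (fun t => t.1) hc
    have h2 : P p.2 = P q.2 := congrArg (fun t => t.2.1) hc
    have h3 : (if p.1 = p.2 then (0 : Fin 3) else if G.Adj p.1 p.2 then 1 else 2) =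
      (if q.1 = q.2 then 0 else if G.Adj q.1 q.2 then 1 else 2) := congrArg (fun t => t.2.2) hc
    have hE : E p.1 p.2 = E q.1 q.2 := by
      have e1 := ind_eq G 0 p.1 p.2
      have e2 := ind_eq G 0 q.1 q.2
      simp only [cf] at e1 e2
      rw [h3] at e1
      linarith
    have hA : A G p.1 p.2 = A G q.1 q.2 := by
      have e1 := ind_eq G 1 p.1 p.2
      have e2 := ind_eq G 1 q.1 q.2
      simp only [cf] at e1 e2
      rw [h3] at e1
      linarith
    have hF1 : ∀ b, F P b p.1 = F P b q.1 := by intro b; unfold F; rw [h1]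
    have hF2 : ∀ b, F P b p.2 = F P b q.2 := by intro b; unfold F; rw [h2]
    have key : ∀ (b : Bool) (α β γ α' β' γ' : ℤ),
        ∑ z, F P b z * ((α * E p.1 z + β * A G p.1 z + γ) * (α' * E z p.2 + β' * A G z p.2 + γ')) =
        ∑ z, F P b z * ((α * E q.1 z + β * A G q.1 z + γ) *
          (α' * E z q.2 + β' * A G z q.2 + γ')) := by
      intro b α β γ α' β' γ'
      rw [expand, expand, sum_E_left, sum_E_left, sum_E_left, sum_E_left, sum_E_left', sum_E_left',
        sum_E_right, sum_E_right, sum_E_right', sum_E_right', sum_A_left, sum_A_left, sum_A_right,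
        sum_A_right, hE, hA, hF1, hF2, hd b _ _ h1, hd b _ _ h2]
      have := h b p q hc
      unfold nb at this
      rw [this]
    have h4 : ({z | Setoid.ker (col G P) (p.1, z) i ∧ Setoid.ker (col G P) (z, p.2) j}.ncard : ℤ) =
        {z | Setoid.ker (col G P) (q.1, z) i ∧ Setoid.ker (col G P) (z, q.2) j}.ncard := by
      rw [ncard_eq, ncard_eq, h1, h2, key]
    exact_mod_cast h4

omit [DecidableEq V] [DecidableRel G.Adj] in
lemma card_fiber {s : Setoid (V × V)} (hs : IsCoherentConfiguration s) {x y : V}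
    (h : s (x, x) (y, y)) (i : V × V) :
    {z | s (x, z) i}.ncard = {z | s (y, z) i}.ncard := by
  have h1 : ∀ w, {z | s (w, z) i} = {z | s (w, z) i ∧ s (z, w) i.swap} := by
    intro w
    ext z
    simp only [Set.mem_ofPred_eq]
    exact ⟨fun h => ⟨h, hs.transpose _ _ h⟩, fun h => h.1⟩
  rw [h1 x, h1 y]
  exact hs.inter i i.swap (x, x) (y, y) h

lemma degree_eq {s : Setoid (V × V)} (hs : IsCoherentConfiguration s) (he : EdgesUnion G s) {x y : V}
    (h : s (x, x) (y, y)) : G.degree x = G.degree y := by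
  classical
  have h1 : ∀ w, G.degree w = ∑ i : Quotient s,
      ((Finset.univ.filter fun z => G.Adj w z).filter fun z => Quotient.mk s (w, z) = i).card := by
    intro w
    rw [← G.card_neighborFinset_eq_degree, G.neighborFinset_eq_filter]
    exact Finset.card_eq_sum_card_fiberwise (fun _ _ => Finset.mem_univ _)
  rw [h1, h1]
  refine Finset.sum_congr rfl fun i _ => ?_
  induction i using Quotient.inductionOn with
  | h i =>
    have h2 : ∀ w, ((Finset.univ.filter fun z => G.Adj w z).filter
        fun z => Quotient.mk s (w, z) = Quotient.mk s i) =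
        if G.Adj i.1 i.2 then {z | s (w, z) i}.toFinset else ∅ := by
      intro w
      ext z
      rw [mem_filter, mem_filter]
      split_ifs with hi
      · rw [Set.mem_toFinset, Set.mem_ofPred_eq, Quotient.eq]
        simp only [mem_univ, true_and]
        exact ⟨fun h => h.2, fun h => ⟨(he _ _ h).2 hi, h⟩⟩
      · rw [Quotient.eq]
        simp only [mem_univ, true_and, notMem_empty, iff_false, not_and]
        intro h3 h4
        exact hi ((he _ _ h4).1 h3)
    rw [h2, h2]
    split_ifs
    · rw [← Set.ncard_eq_toFinset_card', ← Set.ncard_eq_toFinset_card']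
      exact card_fiber hs h i
    · rfl

/-- every coherent configuration compatible with `G` refines the colours if the parts are
determined by the degrees -/
theorem refines (hP : ∀ x y, G.degree x = G.degree y → P x = P y) {s : Setoid (V × V)}
    (hs : IsCoherentConfiguration s) (he : EdgesUnion G s) : s ≤ Setoid.ker (col G P) := by
  intro p q hpq
  rw [Setoid.ker_def]
  have hx : s (p.1, p.1) (q.1, q.1) := by
    have h1 := hs.inter (p.1, p.1) p p q hpq
    have h2 : p.1 ∈ {z | s (p.1, z) (p.1, p.1) ∧ s (z, p.2) p} := ⟨s.refl' _, s.refl' _⟩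
    have h3 : 0 < {z | s (p.1, z) (p.1, p.1) ∧ s (z, p.2) p}.ncard :=
      (Set.ncard_pos (Set.toFinite _)).2 ⟨_, h2⟩
    rw [h1, Set.ncard_pos (Set.toFinite _)] at h3
    obtain ⟨z, hz, -⟩ := h3
    have h4 := s.symm' hz
    have h5 := hs.diag _ _ _ h4
    rw [← h5] at h4
    exact h4
  have hy : s (p.2, p.2) (q.2, q.2) := by
    have h1 := hs.inter p (p.2, p.2) p q hpq
    have h2 : p.2 ∈ {z | s (p.1, z) p ∧ s (z, p.2) (p.2, p.2)} := ⟨s.refl' _, s.refl' _⟩
    have h3 : 0 < {z | s (p.1, z) p ∧ s (z, p.2) (p.2, p.2)}.ncard :=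
      (Set.ncard_pos (Set.toFinite _)).2 ⟨_, h2⟩
    rw [h1, Set.ncard_pos (Set.toFinite _)] at h3
    obtain ⟨z, -, hz⟩ := h3
    have h4 := s.symm' hz
    have h5 := hs.diag _ _ _ h4
    rw [h5] at h4
    exact h4
  have h1 : P p.1 = P q.1 := hP _ _ (degree_eq G hs he hx)
  have h2 : P p.2 = P q.2 := hP _ _ (degree_eq G hs he hy)
  have h3 : p.1 = p.2 ↔ q.1 = q.2 := by
    constructor
    · intro h
      have h4 : s (p.1, p.1) (q.1, q.2) := by
        have : (p.1, p.1) = p := Prod.ext rfl h
        rw [this]; exact hpq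
      exact hs.diag _ _ _ h4
    · intro h
      have h4 : s (q.1, q.1) (p.1, p.2) := by
        have : (q.1, q.1) = q := Prod.ext rfl h
        rw [this]; exact s.symm' hpq
      exact hs.diag _ _ _ h4
  have h4 := he p q hpq
  simp only [col, h1, h2, h3, h4]

omit [Fintype V] in
lemma edges_ker : EdgesUnion G (Setoid.ker (col G P)) := by
  intro p q hpq
  have h3 : (if p.1 = p.2 then (0 : Fin 3) else if G.Adj p.1 p.2 then 1 else 2) =
      (if q.1 = q.2 then 0 else if G.Adj q.1 q.2 then 1 else 2) :=
    congrArg (fun t => t.2.2) (Setoid.ker_def.1 hpq)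
  have hA : A G p.1 p.2 = A G q.1 q.2 := by
    have e1 := ind_eq G 1 p.1 p.2
    have e2 := ind_eq G 1 q.1 q.2
    simp only [cf] at e1 e2
    rw [h3] at e1
    linarith
  unfold A at hA
  by_cases h1 : G.Adj p.1 p.2 <;> by_cases h2 : G.Adj q.1 q.2 <;> simp_all

omit [Fintype V] in
lemma mem_classes (C : Set (V × V)) :
    C ∈ (Setoid.ker (col G P)).classes ↔ ∃ q, C = {p | col G P p = col G P q} := by
  unfold Setoid.classes
  rfl

omit [Fintype V] in
lemma fibres_ker (x₁ x₂ : V) (h1 : P x₁ = true) (h2 : P x₂ = false) :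
    fibres (Setoid.ker (col G P)) = {{x | P x = true}, {x | P x = false}} := by
  have key : ∀ q : V, {p : V × V | col G P p = col G P (q, q)} =
      {p : V × V | p.1 = p.2 ∧ p.1 ∈ {x | P x = P q}} := by
    intro q
    ext p
    simp only [Set.mem_ofPred_eq, col, if_true, Prod.mk.injEq]
    constructor
    · rintro ⟨h3, h4, h5⟩
      have h6 : p.1 = p.2 := by
        by_contra hne
        rw [if_neg hne] at h5
        split_ifs at h5 <;> simp at h5
      exact ⟨h6, h3⟩
    · rintro ⟨h3, h4⟩
      exact ⟨h4, h3 ▸ h4, if_pos h3⟩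
  ext X
  rw [Set.mem_insert_iff, Set.mem_singleton_iff]
  constructor
  · intro hX
    obtain ⟨q, hq⟩ := (mem_classes G P _).1 hX
    have h3 : q ∈ {p : V × V | p.1 = p.2 ∧ p.1 ∈ X} := by rw [hq]; rfl
    obtain ⟨h4, h5⟩ := h3
    have h6 : q = (q.1, q.1) := Prod.ext rfl h4.symm
    rw [h6, key] at hq
    have h7 : X = {x | P x = P q.1} := by
      ext z
      have := congrArg (fun S => (z, z) ∈ S) hq
      simpa using this
    cases hq1 : P q.1
    · right; rw [h7, hq1]
    · left; rw [h7, hq1]
  · rintro (rfl | rfl)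
    · refine (mem_classes G P _).2 ⟨(x₁, x₁), ?_⟩
      rw [key, h1]
    · refine (mem_classes G P _).2 ⟨(x₂, x₂), ?_⟩
      rw [key, h2]

omit [Fintype V] in
lemma relationsIn_ker (b b' : Bool) (C : Set (V × V)) :
    C ∈ relationsIn (Setoid.ker (col G P)) {x | P x = b} {x | P x = b'} ↔
      ∃ q, C = {p | col G P p = col G P q} ∧ P q.1 = b ∧ P q.2 = b' := by
  unfold relationsIn
  rw [Set.mem_ofPred_eq, mem_classes]
  constructor
  · rintro ⟨⟨q, hq⟩, hsub⟩
    have : q ∈ C := by rw [hq]; rfl
    have h1 := hsub this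
    exact ⟨q, hq, h1.1, h1.2⟩
  · rintro ⟨q, hq, h1, h2⟩
    refine ⟨⟨q, hq⟩, ?_⟩
    intro p hp
    rw [hq] at hp
    have hp' : col G P p = col G P q := hp
    have e1 : P p.1 = P q.1 := congrArg (fun t => t.1) hp'
    have e2 : P p.2 = P q.2 := congrArg (fun t => t.2.1) hp'
    exact ⟨e1.trans h1, e2.trans h2⟩

omit [Fintype V] in
lemma class_inj {q q' : V × V} (h : {p | col G P p = col G P q} = {p | col G P p = col G P q'}) :
    col G P q = col G P q' := by
  have : q ∈ {p | col G P p = col G P q'} := by rw [← h]; rfl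
  exact this

omit [Fintype V] in
lemma ncard_three (b : Bool) (x y z w : V) (hx : P x = b) (hy : P y = b) (hz : P z = b)
    (hw : P w = b) (hxy : G.Adj x y) (hzw : ¬ G.Adj z w) (hne : z ≠ w) :
    (relationsIn (Setoid.ker (col G P)) {x | P x = b} {x | P x = b}).ncard = 3 := by
  rw [Set.ncard_eq_three]
  have c0 : col G P (x, x) = (b, b, 0) := by simp [col, hx]
  have c1 : col G P (x, y) = (b, b, 1) := by simp [col, hx, hy, hxy, hxy.ne]
  have c2 : col G P (z, w) = (b, b, 2) := by simp [col, hz, hw, hzw, hne]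
  refine ⟨{p | col G P p = col G P (x, x)}, {p | col G P p = col G P (x, y)},
    {p | col G P p = col G P (z, w)}, ?_, ?_, ?_, ?_⟩
  · intro h; have := class_inj G P h; rw [c0, c1] at this; simp at this
  · intro h; have := class_inj G P h; rw [c0, c2] at this; simp at this
  · intro h; have := class_inj G P h; rw [c1, c2] at this; simp at this
  · ext C
    rw [relationsIn_ker]
    simp only [Set.mem_insert_iff, Set.mem_singleton_iff]
    constructor
    · rintro ⟨q, rfl, h1, h2⟩
      by_cases h3 : q.1 = q.2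
      · left; rw [c0]; simp [col, h3, h2]
      · by_cases h4 : G.Adj q.1 q.2
        · right; left; rw [c1]; simp [col, h3, h2, h1, h4]
        · right; right; rw [c2]; simp [col, h3, h2, h1, h4]
    · rintro (rfl | rfl | rfl)
      · exact ⟨_, rfl, hx, hx⟩
      · exact ⟨_, rfl, hx, hy⟩
      · exact ⟨_, rfl, hz, hw⟩

omit [Fintype V] in
lemma ncard_two (b b' : Bool) (hb : b ≠ b') (x y z w : V) (hx : P x = b) (hy : P y = b')
    (hz : P z = b) (hw : P w = b') (hxy : G.Adj x y) (hzw : ¬ G.Adj z w) :
    (relationsIn (Setoid.ker (col G P)) {x | P x = b} {x | P x = b'}).ncard = 2 := by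
  rw [Set.ncard_eq_two]
  have hne : z ≠ w := by rintro rfl; exact hb (hz.symm.trans hw)
  have c1 : col G P (x, y) = (b, b', 1) := by simp [col, hx, hy, hxy, hxy.ne]
  have c2 : col G P (z, w) = (b, b', 2) := by simp [col, hz, hw, hzw, hne]
  refine ⟨{p | col G P p = col G P (x, y)}, {p | col G P p = col G P (z, w)}, ?_, ?_⟩
  · intro h; have := class_inj G P h; rw [c1, c2] at this; simp at this
  · ext C
    rw [relationsIn_ker]
    simp only [Set.mem_insert_iff, Set.mem_singleton_iff]
    constructor
    · rintro ⟨q, rfl, h1, h2⟩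
      have h3 : q.1 ≠ q.2 := by intro h; rw [h] at h1; exact hb (h1.symm.trans h2)
      by_cases h4 : G.Adj q.1 q.2
      · left; rw [c1]; simp [col, h3, h2, h1, h4]
      · right; rw [c2]; simp [col, h3, h2, h1, h4]
    · rintro (rfl | rfl)
      · exact ⟨_, rfl, hx, hy⟩
      · exact ⟨_, rfl, hz, hw⟩

end Q119.ST
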