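import Mathlib

/-! Spectrum of a graph with `A² = (θ₁ + θ₂) A - θ₁ θ₂ I + κ β βᵀ` (helper119). -/

namespace Q119.ST

open Finset Matrix

theorem mem_spec {n : Type} [Fintype n] [DecidableEq n] (A : Matrix n n ℝ) (μ : ℝ) :
    μ ∈ spectrum ℝ A ↔ ∃ v : n → ℝ, v ≠ 0 ∧ A *ᵥ v = μ • v := by
  rw [spectrum.mem_iff, Matrix.isUnit_iff_isUnit_det, isUnit_iff_ne_zero, not_not,
    ← Matrix.exists_mulVec_eq_zero_iff]
  constructor
  · rintro ⟨v, hv, h⟩
    refine ⟨v, hv, ?_⟩
    rw [Matrix.sub_mulVec, sub_eq_zero] at h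
    rw [← h, Matrix.algebraMap_eq_diagonal]
    ext i; simp [Matrix.mulVec_diagonal]
  · rintro ⟨v, hv, h⟩
    refine ⟨v, hv, ?_⟩
    rw [Matrix.sub_mulVec, h, sub_eq_zero, Matrix.algebraMap_eq_diagonal]
    ext i; simp [Matrix.mulVec_diagonal]

/-- the spectrum of a graph satisfying a quadratic equation up to a rank one matrix -/
theorem spectrum_eq {V : Type} [Fintype V] [DecidableEq V] (G : SimpleGraph V)
    [DecidableRel G.Adj] (θ₀ θ₁ θ₂ κ : ℝ) (β : V → ℝ)
    (hA2 : ∀ x y, ∑ z, G.adjMatrix ℝ x z * G.adjMatrix ℝ z y =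
      (θ₁ + θ₂) * G.adjMatrix ℝ x y - (if x = y then θ₁ * θ₂ else 0) + κ * (β x * β y))
    (hAβ : ∀ x, ∑ z, G.adjMatrix ℝ x z * β z = θ₀ * β x) (p p' : V) (hpp : p ≠ p')
    (hβ : β p = β p') (hβ0 : β p ≠ 0) (hadj : ¬ G.Adj p p') (h1 : θ₁ ≠ 0) (h2 : θ₂ ≠ 0) :
    spectrum ℝ (G.adjMatrix ℝ) = {θ₀, θ₁, θ₂} := by
  set M := G.adjMatrix ℝ with hM
  have hsymm : Mᵀ = M := by rw [hM]; exact SimpleGraph.transpose_adjMatrix _
  have hMβ : M *ᵥ β = θ₀ • β := by
    ext x
    simp only [Matrix.mulVec, dotProduct, Pi.smul_apply, smul_eq_mul]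
    exact hAβ x
  have hMM : ∀ v, M *ᵥ (M *ᵥ v) = (θ₁ + θ₂) • (M *ᵥ v) - (θ₁ * θ₂) • v + (κ * (β ⬝ᵥ v)) • β := by
    intro v
    rw [Matrix.mulVec_mulVec]
    ext x
    simp only [Matrix.mulVec, dotProduct, Pi.add_apply, Pi.sub_apply, Pi.smul_apply, smul_eq_mul]
    have e : ∀ z, (M * M) x z * v z = (θ₁ + θ₂) * (M x z * v z)
        - (if x = z then θ₁ * θ₂ * v z else 0) + κ * β x * (β z * v z) := by
      intro z
      rw [Matrix.mul_apply, hA2]
      by_cases hxz : x = z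
      · rw [if_pos hxz, if_pos hxz]; ring
      · rw [if_neg hxz, if_neg hxz]; ring
    rw [Finset.sum_congr rfl fun z _ => e z, Finset.sum_add_distrib, Finset.sum_sub_distrib,
      ← Finset.mul_sum, ← Finset.mul_sum, Finset.sum_ite_eq]
    simp only [mem_univ, if_true]
    ring
  ext μ
  rw [mem_spec]
  simp only [Set.mem_insert_iff, Set.mem_singleton_iff]
  constructor
  · rintro ⟨v, hv, hAv⟩
    have h1 : θ₀ * (β ⬝ᵥ v) = μ * (β ⬝ᵥ v) := by
      have e1 : β ⬝ᵥ (M *ᵥ v) = (M *ᵥ β) ⬝ᵥ v := by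
        rw [Matrix.dotProduct_mulVec, ← Matrix.mulVec_transpose, hsymm]
      rw [hAv, hMβ, dotProduct_smul, smul_dotProduct, smul_eq_mul, smul_eq_mul] at e1
      exact e1.symm
    by_cases hb : β ⬝ᵥ v = 0
    · right
      have h2 := hMM v
      rw [hAv, Matrix.mulVec_smul, hAv, hb, mul_zero, zero_smul, add_zero, smul_smul] at h2
      have h3 : ((μ - θ₁) * (μ - θ₂)) • v = 0 := by
        have : ((μ - θ₁) * (μ - θ₂)) • v = (μ * μ) • v - ((θ₁ + θ₂) • μ • v - (θ₁ * θ₂) • v) := by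
          rw [smul_smul, ← sub_smul, ← sub_smul]
          congr 1
          ring
        rw [this, h2, sub_self]
      rcases smul_eq_zero.mp h3 with h4 | h4
      · rcases mul_eq_zero.mp h4 with h6 | h6
        · left; linarith
        · right; linarith
      · exact absurd h4 hv
    · left
      exact (mul_right_cancel₀ hb h1).symm
  · let z : V → ℝ := Pi.single p 1 - Pi.single p' 1
    have hz : β ⬝ᵥ z = 0 := by
      simp only [z, dotProduct_sub, dotProduct_single, mul_one, hβ, sub_self]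
    have hpp0 : M p p = 0 := by rw [hM, SimpleGraph.adjMatrix_apply, if_neg (G.loopless.irrefl p)]
    have hpp1 : M p p' = 0 := by rw [hM, SimpleGraph.adjMatrix_apply, if_neg hadj]
    have hAzp : (M *ᵥ z) p = 0 := by
      simp only [z, Matrix.mulVec_sub, Pi.sub_apply, Matrix.mulVec_single_one,
        Matrix.col_apply, hpp0, hpp1, sub_zero]
    have hzp : z p = 1 := by
      simp [z, Pi.single_eq_of_ne hpp]
    have hMMz := hMM z
    rw [hz, mul_zero, zero_smul, add_zero] at hMMz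
    rintro (rfl | rfl | rfl)
    · refine ⟨β, ?_, hMβ⟩
      intro h0
      exact hβ0 (congrFun h0 p)
    · refine ⟨M *ᵥ z - θ₂ • z, ?_, ?_⟩
      · intro h0
        have := congrFun h0 p
        simp only [Pi.sub_apply, Pi.smul_apply, smul_eq_mul, hAzp, hzp, Pi.zero_apply] at this
        apply h2; linarith
      · rw [Matrix.mulVec_sub, hMMz, Matrix.mulVec_smul]
        ext u
        simp only [Pi.sub_apply, Pi.smul_apply, smul_eq_mul]
        ring
    · refine ⟨M *ᵥ z - θ₁ • z, ?_, ?_⟩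
      · intro h0
        have := congrFun h0 p
        simp only [Pi.sub_apply, Pi.smul_apply, smul_eq_mul, hAzp, hzp, Pi.zero_apply] at this
        apply h1; linarith
      · rw [Matrix.mulVec_sub, hMMz, Matrix.mulVec_smul]
        ext u
        simp only [Pi.sub_apply, Pi.smul_apply, smul_eq_mul]
        ring

end Q119.ST
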