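import Pool.Agent.Q119.ST.Pack
import Pool.Agent.Q119.ST.Config
import Pool.Agent.Q119.ST.Spectral

/-! The graph on 156 vertices (helper119). -/

namespace Q119.ST

open Finset

/-- the graph -/
def Gr : SimpleGraph (Fin 156) where
  Adj x y := a x y = true
  symm := ⟨fun x y h => by rw [a_symm y x y.2 x.2]; exact h⟩
  loopless := ⟨fun x h => by rw [a_irrefl x x.2] at h; exact Bool.noConfusion h⟩

instance : DecidableRel Gr.Adj := fun x y => inferInstanceAs (Decidable (a x y = true))

/-- the partition -/
def PP (x : Fin 156) : Bool := Nat.blt x 60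

lemma nb_eq (b : Bool) (x y : Fin 156) :
    nb Gr PP b x y = ((if b then ex 0 x y else ex 1 x y : ℕ) : ℤ) := by
  unfold nb
  have e0 : ∑ z, F PP b z * (A Gr x z * A Gr z y) =
      ∑ z : Fin 156, (if Nat.blt (z : ℕ) 60 = b then (1 : ℤ) else 0) *
    ((if a x z = true then (1 : ℤ) else 0) * (if a z y = true then (1 : ℤ) else 0)) := by
    refine Finset.sum_congr rfl fun z _ => ?_
    rfl
  rw [e0, Fin.sum_univ_eq_sum_range (fun z => (if Nat.blt z 60 = b then (1 : ℤ) else 0) *
    ((if a x z = true then (1 : ℤ) else 0) * (if a z y = true then (1 : ℤ) else 0))) 156]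
  cases b
  · have h := common1 x y x.2 y.2
    simp only [Bool.false_eq_true, if_false]
    rw [← h]
    push_cast
    refine Finset.sum_congr rfl fun z _ => ?_
    cases Nat.blt z 60 <;> cases a x z <;> cases a z y <;> simp
  · have h := common0 x y x.2 y.2
    simp only [if_true]
    rw [← h]
    push_cast
    refine Finset.sum_congr rfl fun z _ => ?_
    cases Nat.blt z 60 <;> cases a x z <;> cases a z y <;> simp

/-- the expected numbers as functions of the colour -/
def exc (b b₁ b₂ : Bool) (ε : Fin 3) : ℕ :=
  match b, b₁, b₂, ε with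
  | true, true, true, 1 => 52
  | true, true, true, _ => 56
  | true, false, false, 0 => 30
  | true, false, false, 1 => 18
  | true, false, false, 2 => 14
  | true, _, _, _ => 28
  | false, true, true, 0 => 48
  | false, true, true, 1 => 24
  | false, true, true, 2 => 16
  | false, false, false, 0 => 20
  | false, false, false, _ => 4
  | false, _, _, 1 => 12
  | false, _, _, _ => 8

lemma ex_eq (b : Bool) (x y : Fin 156) :
    (if b then ex 0 x y else ex 1 x y) =
      exc b (PP x) (PP y) (if x = y then 0 else if Gr.Adj x y then 1 else 2) := by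
  have hbeq : ((x : ℕ) == (y : ℕ)) = decide (x = y) := by
    by_cases h : x = y
    · subst h; simp
    · have h' : (x : ℕ) ≠ (y : ℕ) := fun h' => h (Fin.ext h')
      simp [h, h']
  by_cases h : x = y
  · subst h
    unfold ex PP
    cases b <;> cases hx : Nat.blt x 60 <;> simp [exc, a_irrefl x x.2]
  · rw [if_neg h]
    unfold ex PP
    rw [hbeq]
    have hadj : Gr.Adj x y ↔ a x y = true := Iff.rfl
    cases b <;> cases hx : Nat.blt x 60 <;> cases hy : Nat.blt y 60 <;> cases ha : a x y <;>
      simp [exc, h, hadj, ha]

lemma nb_exc (b : Bool) (x y : Fin 156) : nb Gr PP b x y =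
    ((exc b (PP x) (PP y) (if x = y then 0 else if Gr.Adj x y then 1 else 2) : ℕ) : ℤ) := by
  rw [nb_eq, ex_eq]

lemma coherent : IsCoherentConfiguration (Setoid.ker (col Gr PP)) := by
  apply coherent_ker
  · intro b p q h
    rw [nb_exc, nb_exc]
    have h1 : PP p.1 = PP q.1 := congrArg (fun t => t.1) h
    have h2 : PP p.2 = PP q.2 := congrArg (fun t => t.2.1) h
    have h3 : (if p.1 = p.2 then (0 : Fin 3) else if Gr.Adj p.1 p.2 then 1 else 2) =
      (if q.1 = q.2 then 0 else if Gr.Adj q.1 q.2 then 1 else 2) := congrArg (fun t => t.2.2) h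
    rw [h1, h2, h3]
  · intro b x y h
    rw [nb_exc, nb_exc, if_pos rfl, if_pos rfl, h]

/-- the degrees in terms of the numbers of common neighbours -/
lemma degree_int (x : Fin 156) :
    (Gr.degree x : ℤ) = nb Gr PP true x x + nb Gr PP false x x := by
  rw [← sum_A_left, ← sum_A_left, ← Finset.sum_add_distrib, ← Gr.card_neighborFinset_eq_degree,
    Gr.neighborFinset_eq_filter, Finset.card_filter]
  push_cast
  refine Finset.sum_congr rfl fun z _ => ?_
  unfold F A
  cases PP z <;> simp

lemma degree_val (x : Fin 156) : (Gr.degree x : ℤ) = if PP x then 104 else 50 := by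
  rw [degree_int, nb_exc, nb_exc, if_pos rfl]
  cases PP x <;> simp [exc]

lemma closure : IsCoherentClosure Gr (Setoid.ker (col Gr PP)) := by
  refine ⟨coherent, edges_ker Gr PP, fun s hs he => refines Gr PP ?_ hs he⟩
  intro x y hxy
  have h1 := degree_val x
  have h2 := degree_val y
  rw [hxy, h2] at h1
  cases hx : PP x <;> cases hy : PP y <;> simp [hx, hy] at h1 ⊢

lemma design : IsStronglyRegularDesign (Setoid.ker (col Gr PP)) := by
  refine ⟨{x | PP x = true}, {x | PP x = false}, ?_, ?_, ?_, ?_, ?_⟩
  · intro h
    have : (0 : Fin 156) ∈ {x : Fin 156 | PP x = false} := by rw [← h]; rfl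
    exact absurd this (by decide)
  · exact fibres_ker Gr PP 0 60 (by decide) (by decide)
  · exact ncard_three Gr PP true 0 4 0 1 (by decide) (by decide) (by decide) (by decide)
      (by decide +kernel) (by decide +kernel) (by decide)
  · exact ncard_two Gr PP true false (by decide) 0 60 0 61 (by decide) (by decide) (by decide)
      (by decide) (by decide +kernel) (by decide +kernel)
  · exact ncard_three Gr PP false 60 76 60 61 (by decide) (by decide) (by decide) (by decide)
      (by decide +kernel) (by decide +kernel) (by decide)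

/-- the weight vector -/
noncomputable def bet (x : Fin 156) : ℝ := if PP x then 2 else 1

lemma adjMat (x y : Fin 156) : Gr.adjMatrix ℝ x y = ((A Gr x y : ℤ) : ℝ) := by
  rw [SimpleGraph.adjMatrix_apply]
  unfold A
  by_cases h : Gr.Adj x y <;> simp [h]

lemma F_add (z : Fin 156) : F PP true z + F PP false z = 1 := by
  unfold F; cases PP z <;> simp

lemma sq (x y : Fin 156) : ∑ z, A Gr x z * A Gr z y =
    nb Gr PP true x y + nb Gr PP false x y := by
  unfold nb
  rw [← Finset.sum_add_distrib]
  refine Finset.sum_congr rfl fun z _ => ?_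
  rw [← add_mul, F_add, one_mul]

lemma spec : spectrum ℝ (Gr.adjMatrix ℝ) = {80, 8, -4} := by
  refine spectrum_eq Gr 80 8 (-4) 18 bet ?_ ?_ 0 1 (by decide) (by simp [bet, PP]) ?_
    (by decide +kernel) (by norm_num) (by norm_num)
  · intro x y
    simp only [adjMat]
    have h := sq x y
    rw [nb_exc, nb_exc] at h
    have h' : ((∑ z, A Gr x z * A Gr z y : ℤ) : ℝ) = _ := congrArg (fun t : ℤ => (t : ℝ)) h
    push_cast at h'
    rw [h']
    unfold bet A
    by_cases hxy : x = y
    · subst hxy
      have : ¬ Gr.Adj x x := Gr.loopless.irrefl x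
      simp only [if_true, if_neg this]
      cases PP x <;> simp [exc] <;> norm_num
    · simp only [if_neg hxy]
      by_cases hadj : Gr.Adj x y
      · simp only [if_pos hadj]
        cases PP x <;> cases PP y <;> simp [exc] <;> norm_num
      · simp only [if_neg hadj]
        cases PP x <;> cases PP y <;> simp [exc] <;> norm_num
  · intro x
    simp only [adjMat]
    have h1 : ∀ z, ((A Gr x z : ℤ) : ℝ) * bet z =
        (((2 * (F PP true z * A Gr x z) + F PP false z * A Gr x z : ℤ)) : ℝ) := by
      intro z
      unfold bet F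
      cases PP z <;> simp <;> ring
    rw [Finset.sum_congr rfl fun z _ => h1 z, ← Int.cast_sum, Finset.sum_add_distrib,
      ← Finset.mul_sum, sum_A_left, sum_A_left, nb_exc, nb_exc, if_pos rfl]
    unfold bet
    cases PP x <;> simp [exc] <;> norm_num
  · simp [bet, PP]

lemma connected : Gr.Connected := by
  have hpre : Gr.Preconnected := by
    intro x y
    by_cases hxy : x = y
    · subst hxy; exact SimpleGraph.Reachable.refl _
    · have h := sq x y
      rw [nb_exc, nb_exc] at h
      have hpos : ∑ z, A Gr x z * A Gr z y ≠ 0 := by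
        rw [h, if_neg hxy]
        by_cases hadj : Gr.Adj x y
        · simp only [if_pos hadj]
          cases PP x <;> cases PP y <;> simp [exc]
        · simp only [if_neg hadj]
          cases PP x <;> cases PP y <;> simp [exc]
      obtain ⟨z, -, hz⟩ := Finset.exists_ne_zero_of_sum_ne_zero hpos
      have h1 : Gr.Adj x z := by
        by_contra h0; apply hz; unfold A; rw [if_neg h0, zero_mul]
      have h2 : Gr.Adj z y := by
        by_contra h0; apply hz; unfold A; rw [if_neg h0, mul_zero]
      exact h1.reachable.trans h2.reachable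
  exact ⟨hpre⟩

end Q119.ST
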