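import Pool.Agent.Q119.ST.Data

/-! Reading the numbers of common neighbours off the packed rows (helper119). -/

namespace Q119.ST

open Finset

lemma pk_succ (f : ℕ → ℕ) (n : ℕ) : pk f (n + 1) = pk f n + f n * 2 ^ (7 * n) := by
  simp [pk, Nat.shiftLeft_eq]

lemma pk_lt (f : ℕ → ℕ) (n : ℕ) (h : ∀ k < n, f k < 128) : pk f n < 2 ^ (7 * n) := by
  induction n with
  | zero => simp [pk]
  | succ n ih =>
    rw [pk_succ]
    have h1 := ih fun k hk => h k (Nat.lt_succ_of_lt hk)
    have h2 := h n (Nat.lt_succ_self n)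
    have h3 : 2 ^ (7 * (n + 1)) = 128 * 2 ^ (7 * n) := by rw [mul_add, pow_add]; norm_num; ring
    rw [h3]
    nlinarith

lemma pk_inj (f g : ℕ → ℕ) (n : ℕ) (hf : ∀ k < n, f k < 128) (hg : ∀ k < n, g k < 128)
    (h : pk f n = pk g n) : ∀ k < n, f k = g k := by
  induction n with
  | zero => intro k hk; omega
  | succ n ih =>
    rw [pk_succ, pk_succ] at h
    have h1 := pk_lt f n fun k hk => hf k (Nat.lt_succ_of_lt hk)
    have h2 := pk_lt g n fun k hk => hg k (Nat.lt_succ_of_lt hk)
    have h3 : f n = g n := by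
      rcases lt_trichotomy (f n) (g n) with hlt | heq | hgt
      · exfalso
        have : (f n + 1) * 2 ^ (7 * n) ≤ g n * 2 ^ (7 * n) := Nat.mul_le_mul_right _ hlt
        rw [add_mul, one_mul] at this
        omega
      · exact heq
      · exfalso
        have : (g n + 1) * 2 ^ (7 * n) ≤ f n * 2 ^ (7 * n) := Nat.mul_le_mul_right _ hgt
        rw [add_mul, one_mul] at this
        omega
    rw [h3] at h
    have h4 : pk f n = pk g n := by omega
    intro k hk
    rcases Nat.lt_succ_iff_lt_or_eq.1 hk with h5 | h5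
    · exact ih (fun k hk => hf k (Nat.lt_succ_of_lt hk)) (fun k hk => hg k (Nat.lt_succ_of_lt hk))
        h4 k h5
    · rw [h5]; exact h3

lemma pk_add (f g : ℕ → ℕ) (n : ℕ) : pk (fun k => f k + g k) n = pk f n + pk g n := by
  induction n with
  | zero => simp [pk]
  | succ n ih => rw [pk_succ, pk_succ, pk_succ, ih]; ring

lemma pk_zero (n : ℕ) : pk (fun _ => 0) n = 0 := by
  induction n with
  | zero => simp [pk]
  | succ n ih => rw [pk_succ, ih]; simp

lemma R_eq (z : ℕ) (hz : z < 156) : R z = pk (fun y => if a z y then 1 else 0) 156 := by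
  have h := (al_iff _ _).1 check_rows z hz
  rw [beq_iff_eq] at h
  rw [h]
  congr 1
  funext y
  cases a z y <;> rfl

lemma sm_eq (p : ℕ → Bool) (n : ℕ) (hn : n ≤ 156) :
    sm p n = pk (fun y => ∑ z ∈ range n, if (p z && a z y) then 1 else 0) 156 := by
  induction n with
  | zero => simp [sm, pk_zero]
  | succ n ih =>
    rw [sm, ih (by omega)]
    have h : (bif p n then R n else 0) = pk (fun y => if (p n && a n y) then 1 else 0) 156 := by
      cases hp : p n
      · simp [pk_zero]
      · simp only [cond_true, Bool.true_and]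
        exact R_eq n (by omega)
    rw [h, ← pk_add]
    congr 1
    funext y
    rw [sum_range_succ]

lemma a_symm (x y : ℕ) (hx : x < 156) (hy : y < 156) : a x y = a y x := by
  have h := (al_iff _ _).1 ((al_iff _ _).1 check_symm x hx) y hy
  simpa using h

lemma a_irrefl (x : ℕ) (hx : x < 156) : a x x = false := by
  have h := (al_iff _ _).1 check_irrefl x hx
  simpa using h

lemma ex_lt (b x y : ℕ) : ex b x y < 128 := by
  unfold ex
  cases b == 0 <;> cases Nat.blt x 60 <;> cases Nat.blt y 60 <;> cases x == y <;>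
    cases a x y <;> decide

lemma common0 (x y : ℕ) (hx : x < 156) (hy : y < 156) :
    ∑ z ∈ range 156, (if (Nat.blt z 60 && a x z && a z y) then 1 else 0) = ex 0 x y := by
  have h := (al_iff _ _).1 check_common0 x hx
  rw [beq_iff_eq, sm_eq _ _ le_rfl] at h
  refine pk_inj _ _ _ ?_ ?_ h y hy
  · intro k _
    calc ∑ z ∈ range 156, (if (Nat.blt z 60 && a x z && a z k) then 1 else 0)
        ≤ ∑ z ∈ range 156, (if Nat.blt z 60 then 1 else 0) := by
          refine sum_le_sum fun z _ => ?_
          cases Nat.blt z 60 <;> cases a x z <;> cases a z k <;> simp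
      _ = 60 := by decide +kernel
      _ < 128 := by norm_num
  · intro k _
    exact ex_lt _ _ _

lemma common1 (x y : ℕ) (hx : x < 156) (hy : y < 156) :
    ∑ z ∈ range 156, (if (!(Nat.blt z 60) && a x z && a z y) then 1 else 0) = ex 1 x y := by
  have h := (al_iff _ _).1 check_common1 x hx
  rw [beq_iff_eq, sm_eq _ _ le_rfl] at h
  refine pk_inj _ _ _ ?_ ?_ h y hy
  · intro k _
    calc ∑ z ∈ range 156, (if (!(Nat.blt z 60) && a x z && a z k) then 1 else 0)
        ≤ ∑ z ∈ range 156, (if !(Nat.blt z 60) then 1 else 0) := by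
          refine sum_le_sum fun z _ => ?_
          cases Nat.blt z 60 <;> cases a x z <;> cases a z k <;> simp
      _ = 96 := by decide +kernel
      _ < 128 := by norm_num
  · intro k _
    exact ex_lt _ _ _

end Q119.ST
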